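import Pool.Agent.Run7.h112.SGMain

/-!
# Adequate diagrams of 4-valent spatial graphs

The definitions of the statement are in `Pool.Agent.Run7.h112.SGSpec` (`GPiece`, `GWord`, `GClosed`,
`gcrossings`, `GMove`, `GStep`, `GIsotopic`, `Smoothing`, `GAdequate`), `Pool.Agent.Run7.h112.Spec`
(`AState`, `AAdequate`, `BAdequate`, `Adequate`, `mir`) and `Pool.Agent.Helper454.Kauf.Defs` (`Piece`,
`Word`, `LocalMove`, `FirstMove`).
-/

set_option autoImplicit false

namespace Pool.Agent.Results.MP_5e61f3_gt.FourValent

open Run7.h112

/-- **Theorem.** Let `G` be an adequate diagram of a 4-valent spatial graph (with any number of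
vertices, and possibly with components which are circles without vertices) and let `G'` be a diagram
of an isotopic spatial graph. Then `G'` has at least as many crossings as `G`. -/
theorem result (G G' : GWord) (hG : GClosed G) (hG' : GClosed G') (hA : GAdequate G)
    (h : GIsotopic G G') : gcrossings G ≤ gcrossings G' :=
  adequate_minimal hG hA G' hG' h

end Pool.Agent.Results.MP_5e61f3_gt.FourValent
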